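import Pool.Agent.Helper70.SK.Stmts
import Pool.Agent.Helper70.SK.Lib

set_option autoImplicit false

/-! # Module FANO: entropy of the shifted cells of a nearby point -/

open Finset

namespace Pool.Agent.Helper70.SK

open Pool.Agent.Helper70.DK

/-! ### one coordinate -/

/-- the sum of the cells -/
theorem fano_shift (M s : ℕ) (hs : 0 < s) (h : s ∣ M) (a : ℤ) :
    ∑ v ∈ range M, (a + 1 + (v : ℤ)) / (s : ℤ) = ∑ v ∈ range M, (a + (v : ℤ)) / (s : ℤ) + (M / s : ℕ) := by
  have h1 := Finset.sum_range_succ (fun v : ℕ => (a + (v : ℤ)) / (s : ℤ)) M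
  have h2 := Finset.sum_range_succ' (fun v : ℕ => (a + (v : ℤ)) / (s : ℤ)) M
  obtain ⟨t, rfl⟩ := h
  have h3 : (a + ((s * t : ℕ) : ℤ)) / (s : ℤ) = a / (s : ℤ) + t := by
    push_cast
    rw [Int.add_mul_ediv_left _ _ (by exact_mod_cast hs.ne')]
  have h4 : ∀ v : ℕ, (a + ((v + 1 : ℕ) : ℤ)) / (s : ℤ) = (a + 1 + (v : ℤ)) / (s : ℤ) := by
    intro v
    push_cast
    rw [show a + ((v : ℤ) + 1) = a + 1 + v by ring]
  rw [Finset.sum_congr rfl fun v _ => h4 v] at h2
  rw [Nat.mul_div_cancel_left _ hs]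
  rw [h3] at h1
  simp only [Nat.cast_zero, add_zero] at h2
  omega

theorem fano_lin (M s : ℕ) (hs : 0 < s) (h : s ∣ M) (a : ℤ) (n : ℕ) :
    ∑ v ∈ range M, (a + n + (v : ℤ)) / (s : ℤ) =
      ∑ v ∈ range M, (a + (v : ℤ)) / (s : ℤ) + n * (M / s : ℕ) := by
  induction n with
  | zero => simp
  | succ n ih =>
    have h1 := fano_shift M s hs h (a + n)
    have h2 : ∑ v ∈ range M, (a + ((n + 1 : ℕ) : ℤ) + (v : ℤ)) / (s : ℤ) =
        ∑ v ∈ range M, (a + n + 1 + (v : ℤ)) / (s : ℤ) := by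
      refine Finset.sum_congr rfl fun v _ => ?_
      push_cast
      rw [add_assoc a (n : ℤ) 1]
    rw [h2, h1, ih]
    push_cast
    ring

/-- the difference of the cells is `-1`, `0` or `1` -/
theorem fano_tri (s a a' : ℤ) (hs : 0 < s) (h1 : a' ≤ a) (h2 : a ≤ a' + s) :
    0 ≤ a / s - a' / s ∧ a / s - a' / s ≤ 1 := by
  have h3 := Int.ediv_le_ediv hs h1
  have h4 := Int.ediv_le_ediv hs h2
  have h5 : (a' + s) / s = a' / s + 1 := Int.add_ediv_of_dvd_right (dvd_refl s) |>.trans (by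
    rw [Int.ediv_self hs.ne'])
  omega

theorem fano_one_le (M s : ℕ) (hs : 0 < s) (h : s ∣ M) (a a' : ℤ) (h1 : a' ≤ a) (h2 : a ≤ a' + s) :
    (((range M).filter fun v : ℕ => (a + (v : ℤ)) / (s : ℤ) ≠ (a' + (v : ℤ)) / (s : ℤ)).card : ℤ) =
      (a - a') * (M / s : ℕ) := by
  obtain ⟨n, hn⟩ := Int.le.dest h1
  have h3 := fano_lin M s hs h a' n
  have h4 : (((range M).filter fun v : ℕ => (a + (v : ℤ)) / (s : ℤ) ≠ (a' + (v : ℤ)) / (s : ℤ)).card : ℤ) =
      ∑ v ∈ range M, ((a + (v : ℤ)) / (s : ℤ) - (a' + (v : ℤ)) / (s : ℤ)) := by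
    rw [Finset.card_filter]
    push_cast
    refine Finset.sum_congr rfl fun v _ => ?_
    obtain ⟨g1, g2⟩ := fano_tri (s : ℤ) (a + v) (a' + v) (by exact_mod_cast hs) (by omega) (by omega)
    split_ifs with g
    · omega
    · omega
  rw [h4, Finset.sum_sub_distrib, ← hn, h3]
  ring

theorem fano_one (M s : ℕ) (hs : 0 < s) (h : s ∣ M) (a a' : ℤ) (ρ : ℝ) (hρ : ρ ≤ s)
    (ha : |(a : ℝ) - (a' : ℝ)| ≤ ρ) :
    (((range M).filter fun v : ℕ => (a + (v : ℤ)) / (s : ℤ) ≠ (a' + (v : ℤ)) / (s : ℤ)).card : ℝ) ≤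
      ρ / s * M := by
  have hs' : (0 : ℝ) < s := by exact_mod_cast hs
  have hM : ((M / s : ℕ) : ℝ) = (M : ℝ) / s := Nat.cast_div h hs'.ne'
  have hk : ∀ b b' : ℤ, b' ≤ b → |(b : ℝ) - (b' : ℝ)| ≤ ρ →
      (((range M).filter fun v : ℕ => (b + (v : ℤ)) / (s : ℤ) ≠ (b' + (v : ℤ)) / (s : ℤ)).card : ℝ) ≤
      ρ / s * M := by
    intro b b' h1 h2
    have h3 : (b : ℝ) - b' ≤ ρ := (le_abs_self _).trans h2
    have h4 : b ≤ b' + s := by
      have : (b : ℝ) ≤ b' + s := by linarith
      exact_mod_cast this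
    have h5 := fano_one_le M s hs h b b' h1 h4
    have h8 : (((range M).filter fun v : ℕ => (b + (v : ℤ)) / (s : ℤ) ≠
        (b' + (v : ℤ)) / (s : ℤ)).card : ℝ) = ((b : ℝ) - b') * ((M : ℝ) / s) := by
      rw [← hM]
      generalize M / s = t at h5
      exact_mod_cast h5
    rw [h8]
    calc ((b : ℝ) - b') * ((M : ℝ) / s) ≤ ρ * ((M : ℝ) / s) :=
        mul_le_mul_of_nonneg_right h3 (by positivity)
      _ = ρ / s * M := by ring
  rcases le_total a' a with h1 | h1
  · exact hk a a' h1 ha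
  · have h2 := hk a' a h1 (by rw [abs_sub_comm]; exact ha)
    have h3 : ((range M).filter fun v : ℕ => (a + (v : ℤ)) / (s : ℤ) ≠ (a' + (v : ℤ)) / (s : ℤ)) =
        ((range M).filter fun v : ℕ => (a' + (v : ℤ)) / (s : ℤ) ≠ (a + (v : ℤ)) / (s : ℤ)) :=
      Finset.filter_congr fun v _ => ne_comm
    rw [h3]
    exact h2

/-- the same on the integer interval -/
theorem fano_ico (M s : ℕ) (hs : 0 < s) (h : s ∣ M) (a a' : ℤ) (ρ : ℝ) (hρ : ρ ≤ s)
    (ha : |(a : ℝ) - (a' : ℝ)| ≤ ρ) :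
    (((Ico (0 : ℤ) M).filter fun v : ℤ => (a + v) / (s : ℤ) ≠ (a' + v) / (s : ℤ)).card : ℝ) ≤
      ρ / s * M := by
  have h1 : ((Ico (0 : ℤ) M).filter fun v : ℤ => (a + v) / (s : ℤ) ≠ (a' + v) / (s : ℤ)).card =
      ((range M).filter fun v : ℕ => (a + (v : ℤ)) / (s : ℤ) ≠ (a' + (v : ℤ)) / (s : ℤ)).card := by
    refine (Finset.card_bij (fun (v : ℕ) _ => (v : ℤ)) ?_ ?_ ?_).symm
    · intro v hv
      rw [mem_filter, mem_range] at hv
      rw [mem_filter, mem_Ico]
      exact ⟨⟨by positivity, by exact_mod_cast hv.1⟩, hv.2⟩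
    · intro v _ w _ e
      exact_mod_cast e
    · intro v hv
      rw [mem_filter, mem_Ico] at hv
      refine ⟨v.toNat, ?_, Int.toNat_of_nonneg hv.1.1⟩
      rw [mem_filter, mem_range, Int.toNat_of_nonneg hv.1.1]
      exact ⟨by omega, hv.2⟩
  rw [h1]
  exact fano_one M s hs h a a' ρ hρ ha

theorem fano_gr_card (q M : ℕ) : ((gr q M).card : ℝ) = (M : ℝ) ^ q := by
  unfold gr
  rw [Fintype.card_piFinset_const]
  simp

/-- the bad shifts of one coordinate -/
theorem fano_gr (q M s : ℕ) (hs : 0 < s) (h : s ∣ M) (a a' : ℤ) (ρ : ℝ) (hρ : ρ ≤ s)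
    (ha : |(a : ℝ) - (a' : ℝ)| ≤ ρ) (r : Fin q) :
    (((gr q M).filter fun u : Fin q → ℤ => (a + u r) / (s : ℤ) ≠ (a' + u r) / (s : ℤ)).card : ℝ) ≤
      ρ / s * (M : ℝ) ^ q := by
  classical
  have h1 : ((gr q M).filter fun u : Fin q → ℤ => (a + u r) / (s : ℤ) ≠ (a' + u r) / (s : ℤ)).card =
      ∑ v ∈ (Ico (0 : ℤ) M).filter fun v : ℤ => (a + v) / (s : ℤ) ≠ (a' + v) / (s : ℤ),
        ((gr q M).filter fun u : Fin q → ℤ => u r = v).card := by
    rw [Finset.card_eq_sum_card_fiberwise (f := fun u : Fin q → ℤ => u r)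
      (t := (Ico (0 : ℤ) M).filter fun v : ℤ => (a + v) / (s : ℤ) ≠ (a' + v) / (s : ℤ))]
    · refine Finset.sum_congr rfl fun v hv => ?_
      rw [Finset.filter_filter]
      congr 1
      refine Finset.filter_congr fun u _ => ?_
      rw [mem_filter] at hv
      constructor
      · exact fun h => h.2
      · intro h
        rw [h]
        exact ⟨hv.2, rfl⟩
    · intro u hu
      have hu' := Finset.mem_filter.1 hu
      have hm : u r ∈ Ico (0 : ℤ) M := by
        have := hu'.1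
        unfold gr at this
        rw [Fintype.mem_piFinset] at this
        exact this r
      exact Finset.mem_filter.2 ⟨hm, hu'.2⟩
  have h2 : ∀ v ∈ (Ico (0 : ℤ) M).filter fun v : ℤ => (a + v) / (s : ℤ) ≠ (a' + v) / (s : ℤ),
      ((gr q M).filter fun u : Fin q → ℤ => u r = v).card = M ^ (q - 1) := by
    intro v hv
    rw [mem_filter] at hv
    unfold gr
    rw [Fintype.card_filter_piFinset_const_eq_of_mem _ r hv.1]
    simp
  rw [h1, Finset.sum_congr rfl h2, Finset.sum_const, smul_eq_mul]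
  push_cast
  have h3 := fano_ico M s hs h a a' ρ hρ ha
  have hq : q = (q - 1) + 1 := by
    have := r.pos
    omega
  calc (((Ico (0 : ℤ) M).filter fun v : ℤ => (a + v) / (s : ℤ) ≠ (a' + v) / (s : ℤ)).card : ℝ) *
        (M : ℝ) ^ (q - 1) ≤ (ρ / s * M) * (M : ℝ) ^ (q - 1) :=
        mul_le_mul_of_nonneg_right h3 (by positivity)
    _ = ρ / s * ((M : ℝ) ^ ((q - 1) + 1)) := by ring
    _ = ρ / s * (M : ℝ) ^ q := by rw [← hq]

/-! ### entropy -/

/-- subadditivity over the coordinates -/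
theorem fano_sub {Ω : Type} (S : Finset Ω) : ∀ (q : ℕ) (D : Ω → Fin q → ℤ),
    ent S D ≤ ∑ r, ent S (fun ω => D ω r) := by
  intro q
  induction q with
  | zero =>
    intro D
    rw [ent_const S D (fun x _ y _ => funext fun r => r.elim0)]
    simp
  | succ q ih =>
    intro D
    have h1 : ent S D = ent S (fun ω => (D ω 0, fun r : Fin q => D ω r.succ)) := by
      refine ent_congr S D _ fun x _ y _ => ?_
      rw [Prod.mk.injEq]
      constructor
      · rintro ⟨e1, e2⟩
        funext r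
        refine Fin.cases e1 (fun i => congrFun e2 i) r
      · intro e
        rw [e]
        exact ⟨rfl, rfl⟩
    have h2 := st_E1.2.2.2 Ω ℤ (Fin q → ℤ) S (fun ω => D ω 0) (fun ω => fun r : Fin q => D ω r.succ)
    have h3 := ih (fun ω => fun r : Fin q => D ω r.succ)
    rw [Fin.sum_univ_succ, h1]
    linarith

/-- Gibbs -/
theorem fano_gibbs (t y : ℝ) (ht : 0 ≤ t) (hy : 0 < y) :
    -(t * Real.log t) ≤ -(t * Real.log y) + (y - t) := by
  rcases ht.eq_or_lt with h | h
  · rw [← h]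
    simp
    exact hy.le
  · have h1 := Real.log_le_sub_one_of_pos (show 0 < y / t by positivity)
    rw [Real.log_div hy.ne' h.ne'] at h1
    have h2 := mul_le_mul_of_nonneg_left h1 ht
    have h3 : t * (y / t - 1) = y - t := by
      field_simp
    rw [h3] at h2
    linarith

theorem fano_log2 : Real.log 2 ≤ 1 := by
  have := Real.log_two_lt_d9
  linarith

/-- entropy of a variable with values in `{-1, 0, 1}` -/
theorem fano_ent {Ω : Type} (W : Finset Ω) (D : Ω → ℤ) (x : ℝ) (hx : 0 < x) (hx1 : x ≤ 1)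
    (hW : W.Nonempty) (hD : ∀ ω ∈ W, D ω = -1 ∨ D ω = 0 ∨ D ω = 1)
    (hp : ((W.filter fun ω => D ω ≠ 0).card : ℝ) ≤ x * W.card) :
    ent W D ≤ x * (Real.log (1 / x) + 2) := by
  classical
  have hA : ∀ ω ∈ W, D ω ∈ ({-1, 0, 1} : Finset ℤ) := by
    intro ω hω
    rcases hD ω hω with h | h | h <;> rw [h] <;> simp
  have h1 := ent_eq_sum_law W D {-1, 0, 1} hA
  have h2 := law_sum W D {-1, 0, 1} hA hW
  have e : ∀ F : ℤ → ℝ, ∑ z ∈ ({-1, 0, 1} : Finset ℤ), F z = F (-1) + (F 0 + F 1) := by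
    intro F
    rw [Finset.sum_insert (by simp), Finset.sum_insert (by simp), Finset.sum_singleton]
  rw [e] at h1 h2
  have a0 := law_nonneg W D (-1)
  have b0 := law_nonneg W D 1
  have c0 := law_nonneg W D 0
  have hWc : (0 : ℝ) < W.card := by exact_mod_cast hW.card_pos
  have hab : law W D (-1) + law W D 1 ≤ x := by
    have hc : ((W.filter fun ω => D ω = -1).card : ℝ) + ((W.filter fun ω => D ω = 1).card : ℝ) ≤
        ((W.filter fun ω => D ω ≠ 0).card : ℝ) := by
      have : (W.filter fun ω => D ω = -1).card + (W.filter fun ω => D ω = 1).card ≤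
          (W.filter fun ω => D ω ≠ 0).card := by
        rw [← Finset.card_union_of_disjoint]
        · refine Finset.card_le_card fun ω hω => ?_
          rw [mem_union, mem_filter, mem_filter] at hω
          rw [mem_filter]
          rcases hω with h | h
          · exact ⟨h.1, by rw [h.2]; norm_num⟩
          · exact ⟨h.1, by rw [h.2]; norm_num⟩
        · rw [Finset.disjoint_filter]
          intro ω _ h h'
          rw [h] at h'
          norm_num at h'
      exact_mod_cast this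
    have lw : ∀ z, law W D z = ((W.filter fun ω => D ω = z).card : ℝ) / W.card := by
      intro z
      unfold law
      congr
    rw [lw, lw, ← add_div, div_le_iff₀ hWc]
    exact hc.trans hp
  have g1 := fano_gibbs (law W D (-1)) (x / 2) a0 (by positivity)
  have g2 := fano_gibbs (law W D 1) (x / 2) b0 (by positivity)
  have g3 := fano_gibbs (law W D 0) 1 c0 one_pos
  rw [Real.log_one, mul_zero, neg_zero, zero_add] at g3
  have hl : Real.log (x / 2) = -Real.log (1 / x) - Real.log 2 := by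
    rw [Real.log_div hx.ne' (by norm_num), Real.log_div one_ne_zero hx.ne', Real.log_one]
    ring
  have hlx : 0 ≤ Real.log (1 / x) := Real.log_nonneg (by
    rw [le_div_iff₀ hx]
    linarith)
  have hl2 : 0 ≤ Real.log 2 := Real.log_nonneg (by norm_num)
  rw [h1]
  rw [hl] at g1 g2
  have g4 : (law W D (-1) + law W D 1) * (Real.log (1 / x) + Real.log 2) ≤
      x * (Real.log (1 / x) + Real.log 2) := mul_le_mul_of_nonneg_right hab (by linarith)
  have g5 : x * Real.log 2 ≤ x * 1 := mul_le_mul_of_nonneg_left fano_log2 hx.le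
  calc -(law W D (-1) * Real.log (law W D (-1))) + (-(law W D 0 * Real.log (law W D 0)) +
        -(law W D 1 * Real.log (law W D 1)))
      ≤ (-(law W D (-1) * (-Real.log (1 / x) - Real.log 2)) + (x / 2 - law W D (-1))) +
        ((1 - law W D 0) + (-(law W D 1 * (-Real.log (1 / x) - Real.log 2)) +
          (x / 2 - law W D 1))) := by
        linarith
    _ = (law W D (-1) + law W D 1) * (Real.log (1 / x) + Real.log 2) + x +
        (1 - (law W D (-1) + (law W D 0 + law W D 1))) := by ring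
    _ = (law W D (-1) + law W D 1) * (Real.log (1 / x) + Real.log 2) + x := by
        rw [h2]
        ring
    _ ≤ x * (Real.log (1 / x) + Real.log 2) + x := by linarith
    _ ≤ x * (Real.log (1 / x) + 2) := by linarith

theorem st_FANO : ST_FANO := by
  classical
  intro Ω q M s S z z' ρ hs hsM hM hρ hρs hzz
  have hs' : (0 : ℝ) < s := by exact_mod_cast hs
  have hx : 0 < ρ / s := by positivity
  have hx1 : ρ / s ≤ 1 := by
    rw [div_le_one hs']
    exact hρs
  have hcardW : ((S ×ˢ gr q M).card : ℝ) = S.card * (M : ℝ) ^ q := by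
    rw [Finset.card_product]
    push_cast
    rw [fano_gr_card]
  have hcoord : ∀ r : Fin q, (((S ×ˢ gr q M).filter (fun p : Ω × (Fin q → ℤ) =>
      (z p.1 r + p.2 r) / (s : ℤ) ≠ (z' p.1 r + p.2 r) / (s : ℤ))).card : ℝ) ≤
      ρ / s * (S ×ˢ gr q M).card := by
    intro r
    have h1 : ((S ×ˢ gr q M).filter (fun p : Ω × (Fin q → ℤ) =>
      (z p.1 r + p.2 r) / (s : ℤ) ≠ (z' p.1 r + p.2 r) / (s : ℤ))).card =
      ∑ ω ∈ S, ((gr q M).filter fun u : Fin q → ℤ =>
        (z ω r + u r) / (s : ℤ) ≠ (z' ω r + u r) / (s : ℤ)).card := by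
      rw [Finset.card_filter, Finset.sum_product]
      refine Finset.sum_congr rfl fun ω _ => ?_
      rw [Finset.card_filter]
    rw [h1, hcardW]
    push_cast
    calc ∑ ω ∈ S, (((gr q M).filter fun u : Fin q → ℤ =>
        (z ω r + u r) / (s : ℤ) ≠ (z' ω r + u r) / (s : ℤ)).card : ℝ)
        ≤ ∑ ω ∈ S, ρ / s * (M : ℝ) ^ q := Finset.sum_le_sum fun ω hω =>
          fano_gr q M s hs hsM _ _ ρ hρs (hzz ω hω r) r
      _ = ρ / s * (S.card * (M : ℝ) ^ q) := by
        rw [Finset.sum_const, nsmul_eq_mul]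
        ring
  refine ⟨?_, ?_⟩
  · intro ζ Z
    rcases (S ×ˢ gr q M).eq_empty_or_nonempty with hW | hW
    · have hz : cent (S ×ˢ gr q M) (fun p r => (z p.1 r + p.2 r) / (s : ℤ))
          (fun p => ((fun r => (z' p.1 r + p.2 r) / (s : ℤ)), Z p)) = 0 := by
        rw [hW]
        unfold cent ent
        simp
      rw [hz]
      have : 0 ≤ Real.log (s / ρ) := Real.log_nonneg (by
        rw [le_div_iff₀ hρ]
        linarith)
      positivity
    · have h1 := cent_mono_left (S ×ˢ gr q M) (fun p r => (z p.1 r + p.2 r) / (s : ℤ))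
        (fun p r => (z p.1 r + p.2 r) / (s : ℤ) - (z' p.1 r + p.2 r) / (s : ℤ))
        (fun p => ((fun r => (z' p.1 r + p.2 r) / (s : ℤ)), Z p)) (by
          intro x _ y _ e1 e2
          funext r
          have e3 := congrFun e1 r
          have e4 := congrFun (Prod.ext_iff.1 e2).1 r
          simp only at e3 e4
          omega)
      have h2 := cent_le_ent (S ×ˢ gr q M)
        (fun p r => (z p.1 r + p.2 r) / (s : ℤ) - (z' p.1 r + p.2 r) / (s : ℤ))
        (fun p => ((fun r => (z' p.1 r + p.2 r) / (s : ℤ)), Z p))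
      have h3 := fano_sub (S ×ˢ gr q M) q
        (fun p r => (z p.1 r + p.2 r) / (s : ℤ) - (z' p.1 r + p.2 r) / (s : ℤ))
      have h4 : ∀ r : Fin q, ent (S ×ˢ gr q M) (fun p =>
          (z p.1 r + p.2 r) / (s : ℤ) - (z' p.1 r + p.2 r) / (s : ℤ)) ≤
          ρ / s * (Real.log (1 / (ρ / s)) + 2) := by
        intro r
        refine fano_ent _ _ _ hx hx1 hW ?_ ?_
        · intro p hp
          have hS := (Finset.mem_product.1 hp).1
          have hz := hzz p.1 hS r
          have hs0 : (0 : ℤ) < s := by exact_mod_cast hs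
          have q1 : |z p.1 r - z' p.1 r| ≤ s := by
            have : |(z p.1 r : ℝ) - (z' p.1 r : ℝ)| ≤ s := by linarith
            exact_mod_cast this
          rw [abs_le] at q1
          rcases le_total (z' p.1 r) (z p.1 r) with h | h
          · have := fano_tri (s : ℤ) (z p.1 r + p.2 r) (z' p.1 r + p.2 r) hs0 (by omega) (by omega)
            omega
          · have := fano_tri (s : ℤ) (z' p.1 r + p.2 r) (z p.1 r + p.2 r) hs0 (by omega) (by omega)
            omega
        · refine le_trans (le_of_eq ?_) (hcoord r)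
          congr 2
          refine Finset.filter_congr fun p _ => ?_
          rw [ne_eq, sub_eq_zero]
      have h5 : ∑ r : Fin q, ent (S ×ˢ gr q M) (fun p =>
          (z p.1 r + p.2 r) / (s : ℤ) - (z' p.1 r + p.2 r) / (s : ℤ)) ≤
          ∑ r : Fin q, ρ / s * (Real.log (1 / (ρ / s)) + 2) := Finset.sum_le_sum fun r _ => h4 r
      rw [Finset.sum_const, Finset.card_univ, Fintype.card_fin, nsmul_eq_mul, one_div_div] at h5
      calc _ ≤ _ := h1
        _ ≤ _ := h2
        _ ≤ _ := h3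
        _ ≤ _ := h5
        _ = _ := by ring
  · have h1 : (S ×ˢ gr q M).filter (fun p : Ω × (Fin q → ℤ) => ¬ ∀ r, (z p.1 r + p.2 r) / (s : ℤ) =
        (z' p.1 r + p.2 r) / (s : ℤ)) ⊆ Finset.univ.biUnion (fun r : Fin q =>
        (S ×ˢ gr q M).filter (fun p : Ω × (Fin q → ℤ) =>
          (z p.1 r + p.2 r) / (s : ℤ) ≠ (z' p.1 r + p.2 r) / (s : ℤ))) := by
      intro p hp
      rw [mem_filter, not_forall] at hp
      obtain ⟨r, hr⟩ := hp.2
      rw [mem_biUnion]
      exact ⟨r, mem_univ _, mem_filter.2 ⟨hp.1, hr⟩⟩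
    have h2 := (Finset.card_le_card h1).trans Finset.card_biUnion_le
    have h3 : (((S ×ˢ gr q M).filter (fun p : Ω × (Fin q → ℤ) => ¬ ∀ r, (z p.1 r + p.2 r) / (s : ℤ) =
        (z' p.1 r + p.2 r) / (s : ℤ))).card : ℝ) ≤ ∑ r : Fin q, (((S ×ˢ gr q M).filter
        (fun p : Ω × (Fin q → ℤ) =>
          (z p.1 r + p.2 r) / (s : ℤ) ≠ (z' p.1 r + p.2 r) / (s : ℤ))).card : ℝ) := by
      exact_mod_cast h2
    have h4 := h3.trans (Finset.sum_le_sum fun r _ => hcoord r)
    rw [Finset.sum_const, Finset.card_univ, Fintype.card_fin, nsmul_eq_mul] at h4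
    refine le_trans (le_of_eq ?_) (h4.trans (le_of_eq (by ring)))
    rfl

end Pool.Agent.Helper70.SK
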